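import Mathlib
import Pool.Agent.helper26.H27.Expsum

set_option autoImplicit false

open ComplexConjugate Filter Topology

namespace Pool.Agent.helper26.H27.Enflo

open Pool.Agent.helper26.H27.Expsum

/-- Blocks. -/
abbrev Blk (k : ℕ) : Type := Fk k × Fk k → ℂ

/-- The ambient space: bounded sequences of blocks. -/
abbrev Amb : Type := lp Blk ⊤

/-- Inclusion of a block. -/
noncomputable def inj (k : ℕ) : Blk k →ₗ[ℝ] Amb := lp.lsingle (𝕜 := ℝ) (E := Blk) ⊤ k

lemma inj_self (k : ℕ) (u : Blk k) : (inj k u : Amb) k = u := lp.single_apply_self _ _ _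

lemma inj_ne {k j : ℕ} (u : Blk k) (h : j ≠ k) : (inj k u : Amb) j = 0 :=
  lp.single_apply_ne _ _ _ h

lemma norm_inj (k : ℕ) (u : Blk k) : ‖inj k u‖ = ‖u‖ := lp.norm_single (by simp) _ _

/-- The basic vectors, with a complex coefficient. -/
noncomputable def ev (k : ℕ) (y : Fk (k + 1)) : ℂ →ₗ[ℝ] Amb where
  toFun a := inj k (fun g => a * ta k y g) + inj (k + 1) (fun g => a * sg (k + 1) y g)
  map_add' a b := by
    have e1 : (fun g => (a + b) * ta k y g) =
        (fun g => a * ta k y g) + (fun g => b * ta k y g) := by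
      funext g; simp [add_mul]
    have e2 : (fun g => (a + b) * sg (k + 1) y g) =
        (fun g => a * sg (k + 1) y g) + (fun g => b * sg (k + 1) y g) := by
      funext g; simp [add_mul]
    rw [e1, e2, map_add, map_add]; abel
  map_smul' c a := by
    have e1 : (fun g => (c • a) * ta k y g) = c • (fun g => a * ta k y g) := by
      funext g; simp [mul_assoc]
    have e2 : (fun g => (c • a) * sg (k + 1) y g) = c • (fun g => a * sg (k + 1) y g) := by
      funext g; simp [mul_assoc]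
    rw [e1, e2, map_smul, map_smul, smul_add]; rfl

lemma ev_apply (k : ℕ) (y : Fk (k + 1)) (a : ℂ) :
    ev k y a = inj k (fun g => a * ta k y g) + inj (k + 1) (fun g => a * sg (k + 1) y g) := rfl

lemma norm_ev_le (k : ℕ) (y : Fk (k + 1)) (a : ℂ) : ‖ev k y a‖ ≤ 2 * ‖a‖ := by
  rw [ev_apply]
  refine (norm_add_le _ _).trans ?_
  rw [norm_inj, norm_inj]
  have h1 : ‖(fun g => a * ta k y g : Blk k)‖ ≤ ‖a‖ := by
    rw [pi_norm_le_iff_of_nonneg (norm_nonneg _)]
    intro g; rw [norm_mul, norm_ta, mul_one]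
  have h2 : ‖(fun g => a * sg (k + 1) y g : Blk (k + 1))‖ ≤ ‖a‖ := by
    rw [pi_norm_le_iff_of_nonneg (norm_nonneg _)]
    intro g; rw [norm_mul, norm_sg, mul_one]
  linarith

/-- Right multiplication by a complex number, as a real linear map. -/
noncomputable def mulR (c : ℂ) : ℂ →ₗ[ℝ] ℂ := LinearMap.mulRight ℝ c

noncomputable def P (k : ℕ) (g : Fk k × Fk k) : ℂ →ₗ[ℝ] Amb :=
  (q (k + 1))⁻¹ • ∑ y, (ev k y).comp (mulR (conj (ta k y g)))

noncomputable def Q (k : ℕ) (g : Fk (k + 1) × Fk (k + 1)) : ℂ →ₗ[ℝ] Amb :=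
  (q (k + 1))⁻¹ • ∑ y, (ev k y).comp (mulR (conj (sg (k + 1) y g)))

lemma P_apply (k : ℕ) (g : Fk k × Fk k) (a : ℂ) :
    P k g a = (q (k + 1))⁻¹ • ∑ y, ev k y (a * conj (ta k y g)) := by
  unfold P mulR
  simp

lemma Q_apply (k : ℕ) (g : Fk (k + 1) × Fk (k + 1)) (a : ℂ) :
    Q k g a = (q (k + 1))⁻¹ • ∑ y, ev k y (a * conj (sg (k + 1) y g)) := by
  unfold Q mulR
  simp

/-- The rows. -/
noncomputable def phi (k : ℕ) : (Fk k × Fk k) → (ℂ →ₗ[ℝ] Amb) :=
  Nat.rec (motive := fun k => (Fk k × Fk k) → (ℂ →ₗ[ℝ] Amb)) (fun g => P 0 g)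
    (fun k _ g => P (k + 1) g - Q k g) k

lemma phi_zero (g : Fk 0 × Fk 0) : phi 0 g = P 0 g := rfl

lemma phi_succ (k : ℕ) (g : Fk (k + 1) × Fk (k + 1)) : phi (k + 1) g = P (k + 1) g - Q k g := rfl

lemma sum_ev_mul (k : ℕ) {G : Type*} [Fintype G] (u : G → ℂ) (v : Fk (k + 1) → G → ℂ) :
    ∑ g, ∑ y, ev k y (u g * v y g) = ∑ y, ev k y (∑ g, u g * v y g) := by
  rw [Finset.sum_comm]
  simp_rw [map_sum]

lemma sum_P_ta (k : ℕ) (x : Fk (k + 1)) (b : ℂ) :
    (q k ^ 2)⁻¹ • ∑ g, P k g (b * ta k x g) = (q (k + 1))⁻¹ • ev k x b := by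
  have hq : (q k : ℝ) ^ 2 ≠ 0 := by have := q_pos k; positivity
  simp_rw [P_apply]
  rw [← Finset.smul_sum, sum_ev_mul k (fun g => b * ta k x g) (fun y g => conj (ta k y g))]
  have h1 : ∀ y, ∑ g, b * ta k x g * conj (ta k y g) =
      if x = y then (q k ^ 2 : ℝ) • b else 0 := by
    intro y
    simp_rw [mul_assoc]
    rw [← Finset.mul_sum, ta_orth]
    by_cases h : x = y
    · simp [h, mul_comm]
    · simp [h]
  simp_rw [h1]
  have h2 : ∑ y, ev k y (if x = y then (q k ^ 2 : ℝ) • b else 0) = (q k ^ 2 : ℝ) • ev k x b := by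
    rw [Finset.sum_eq_single x]
    · rw [if_pos rfl]; exact map_smul _ _ _
    · intro y _ hy; rw [if_neg (Ne.symm hy), map_zero]
    · intro h; exact absurd (Finset.mem_univ x) h
  rw [h2, smul_smul, smul_smul]
  congr 1
  have := (q_pos k).ne'
  have := (q_pos (k + 1)).ne'
  field_simp

lemma sum_Q_sg (k : ℕ) (x : Fk (k + 1)) (b : ℂ) :
    (q (k + 1) ^ 2)⁻¹ • ∑ g, Q k g (b * sg (k + 1) x g) = (q (k + 1))⁻¹ • ev k x b := by
  have hq : (q (k + 1) : ℝ) ^ 2 ≠ 0 := by have := q_pos (k + 1); positivity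
  simp_rw [Q_apply]
  rw [← Finset.smul_sum,
    sum_ev_mul k (fun g => b * sg (k + 1) x g) (fun y g => conj (sg (k + 1) y g))]
  have h1 : ∀ y, ∑ g, b * sg (k + 1) x g * conj (sg (k + 1) y g) =
      if x = y then (q (k + 1) ^ 2 : ℝ) • b else 0 := by
    intro y
    simp_rw [mul_assoc]
    rw [← Finset.mul_sum, sg_orth]
    by_cases h : x = y
    · simp [h, mul_comm]
    · simp [h]
  simp_rw [h1]
  have h2 : ∑ y, ev k y (if x = y then (q (k + 1) ^ 2 : ℝ) • b else 0) =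
      (q (k + 1) ^ 2 : ℝ) • ev k x b := by
    rw [Finset.sum_eq_single x]
    · rw [if_pos rfl]; exact map_smul _ _ _
    · intro y _ hy; rw [if_neg (Ne.symm hy), map_zero]
    · intro h; exact absurd (Finset.mem_univ x) h
  rw [h2, smul_smul, smul_smul]
  congr 1
  have := (q_pos k).ne'
  have := (q_pos (k + 1)).ne'
  field_simp

lemma sum_P_sg (k : ℕ) (x : Fk k) (b : ℂ) : ∑ g, P k g (b * sg k x g) = 0 := by
  simp_rw [P_apply]
  rw [← Finset.smul_sum, sum_ev_mul k (fun g => b * sg k x g) (fun y g => conj (ta k y g))]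
  have h1 : ∀ y, ∑ g, b * sg k x g * conj (ta k y g) = 0 := by
    intro y
    simp_rw [mul_assoc]
    rw [← Finset.mul_sum, sg_ta_orth, mul_zero]
  simp_rw [h1]
  simp

lemma sum_Q_ta (k : ℕ) (x : Fk (k + 2)) (b : ℂ) : ∑ g, Q k g (b * ta (k + 1) x g) = 0 := by
  simp_rw [Q_apply]
  rw [← Finset.smul_sum,
    sum_ev_mul k (fun g => b * ta (k + 1) x g) (fun y g => conj (sg (k + 1) y g))]
  have h1 : ∀ y, ∑ g, b * ta (k + 1) x g * conj (sg (k + 1) y g) = 0 := by
    intro y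
    simp_rw [mul_assoc]
    rw [← Finset.mul_sum, ta_sg_orth, mul_zero]
  simp_rw [h1]
  simp

/-- The relation between the rows. -/
lemma relation (m : ℕ) (x : Fk (m + 1)) (b : ℂ) :
    (q m ^ 2)⁻¹ • ∑ g, phi m g (b * ta m x g) +
      (q (m + 1) ^ 2)⁻¹ • ∑ g, phi (m + 1) g (b * sg (m + 1) x g) = 0 := by
  have h1 : (q m ^ 2)⁻¹ • ∑ g, phi m g (b * ta m x g) = (q (m + 1))⁻¹ • ev m x b := by
    rw [← sum_P_ta]
    cases m with
    | zero => simp only [phi_zero]
    | succ n =>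
        simp only [phi_succ, LinearMap.sub_apply, Finset.sum_sub_distrib]
        rw [sum_Q_ta, sub_zero]
  have h2 : (q (m + 1) ^ 2)⁻¹ • ∑ g, phi (m + 1) g (b * sg (m + 1) x g) =
      -((q (m + 1))⁻¹ • ev m x b) := by
    simp only [phi_succ, LinearMap.sub_apply, Finset.sum_sub_distrib]
    rw [sum_P_sg, zero_sub, smul_neg, sum_Q_sg]
  rw [h1, h2, add_neg_cancel]

end Pool.Agent.helper26.H27.Enflo
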