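import Mathlib
import Pool.Agent.helper26.H27.Enflo1

set_option autoImplicit false

open ComplexConjugate Filter Topology

namespace Pool.Agent.helper26.H27.Enflo

open Pool.Agent.helper26.H27.Expsum

lemma P_eq (k : ℕ) (g : Fk k × Fk k) (a : ℂ) :
    P k g a = inj k (fun h => a * ((q (k + 1) : ℂ)⁻¹ * ∑ y, conj (ta k y g) * ta k y h)) +
      inj (k + 1) (fun h => a * ((q (k + 1) : ℂ)⁻¹ *
        ∑ y, conj (ta k y g) * sg (k + 1) y h)) := by
  rw [P_apply]
  simp_rw [ev_apply]
  rw [Finset.sum_add_distrib, smul_add, ← map_sum, ← map_sum, ← map_smul, ← map_smul]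
  congr 2
  · funext h
    simp only [Pi.smul_apply, Finset.sum_apply, Complex.real_smul, Complex.ofReal_inv]
    rw [Finset.mul_sum, Finset.mul_sum, Finset.mul_sum]
    refine Finset.sum_congr rfl fun y _ => ?_
    ring
  · funext h
    simp only [Pi.smul_apply, Finset.sum_apply, Complex.real_smul, Complex.ofReal_inv]
    rw [Finset.mul_sum, Finset.mul_sum, Finset.mul_sum]
    refine Finset.sum_congr rfl fun y _ => ?_
    ring

lemma Q_eq (k : ℕ) (g : Fk (k + 1) × Fk (k + 1)) (a : ℂ) :
    Q k g a = inj k (fun h => a * ((q (k + 1) : ℂ)⁻¹ *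
        ∑ y, conj (sg (k + 1) y g) * ta k y h)) +
      inj (k + 1) (fun h => a * ((q (k + 1) : ℂ)⁻¹ *
        ∑ y, conj (sg (k + 1) y g) * sg (k + 1) y h)) := by
  rw [Q_apply]
  simp_rw [ev_apply]
  rw [Finset.sum_add_distrib, smul_add, ← map_sum, ← map_sum, ← map_smul, ← map_smul]
  congr 2
  · funext h
    simp only [Pi.smul_apply, Finset.sum_apply, Complex.real_smul, Complex.ofReal_inv]
    rw [Finset.mul_sum, Finset.mul_sum, Finset.mul_sum]
    refine Finset.sum_congr rfl fun y _ => ?_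
    ring
  · funext h
    simp only [Pi.smul_apply, Finset.sum_apply, Complex.real_smul, Complex.ofReal_inv]
    rw [Finset.mul_sum, Finset.mul_sum, Finset.mul_sum]
    refine Finset.sum_congr rfl fun y _ => ?_
    ring

lemma ta_diag (k : ℕ) (g : Fk k × Fk k) :
    (q (k + 1) : ℂ)⁻¹ * ∑ y, conj (ta k y g) * ta k y g = 1 := by
  have h1 : ∀ y, conj (ta k y g) * ta k y g = 1 := by
    intro y
    rw [mul_comm, Complex.mul_conj, Complex.normSq_eq_norm_sq, norm_ta]; simp
  simp_rw [h1]
  rw [Finset.sum_const, nsmul_eq_mul, mul_one, Finset.card_univ, q_eq']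
  have : (q (k + 1) : ℂ) ≠ 0 := by exact_mod_cast (q_pos (k + 1)).ne'
  exact inv_mul_cancel₀ this

lemma sg_diag (k : ℕ) (g : Fk k × Fk k) :
    (q k : ℂ)⁻¹ * ∑ y, conj (sg k y g) * sg k y g = 1 := by
  have h1 : ∀ y, conj (sg k y g) * sg k y g = 1 := by
    intro y
    rw [mul_comm, Complex.mul_conj, Complex.normSq_eq_norm_sq, norm_sg]; simp
  simp_rw [h1]
  rw [Finset.sum_const, nsmul_eq_mul, mul_one, Finset.card_univ, q_eq']
  have : (q k : ℂ) ≠ 0 := by exact_mod_cast (q_pos k).ne'
  exact inv_mul_cancel₀ this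

/-- The diagonal entries of the rows. -/
lemma phi_diag_zero (g : Fk 0 × Fk 0) (a : ℂ) : (phi 0 g a : Amb) 0 g = a := by
  rw [phi_zero, P_eq]
  rw [lp.coeFn_add, Pi.add_apply, inj_self, inj_ne _ (by norm_num), add_zero, ta_diag, mul_one]

lemma phi_diag_succ (k : ℕ) (g : Fk (k + 1) × Fk (k + 1)) (a : ℂ) :
    (phi (k + 1) g a : Amb) (k + 1) g = 0 := by
  rw [phi_succ, LinearMap.sub_apply, P_eq, Q_eq]
  rw [lp.coeFn_sub, Pi.sub_apply, lp.coeFn_add, lp.coeFn_add, Pi.add_apply, Pi.add_apply,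
    inj_self, inj_self, inj_ne _ (by omega), inj_ne _ (by omega), add_zero, zero_add,
    Pi.sub_apply, ta_diag, sg_diag, sub_self]

lemma norm_pi_le {k : ℕ} {u : Blk k} {c : ℝ} (hc : 0 ≤ c) (h : ∀ g, ‖u g‖ ≤ c) : ‖u‖ ≤ c :=
  (pi_norm_le_iff_of_nonneg hc).2 h

lemma phi_bound (k : ℕ) (g : Fk k × Fk k) (a : ℂ) : ‖phi k g a‖ ≤ 6 * r k * ‖a‖ := by
  cases k with
  | zero =>
      have hq := q_pos 1
      rw [phi_zero, P_apply, norm_smul, norm_inv, Real.norm_of_nonneg hq.le]
      have h1 : ‖∑ y, ev 0 y (a * conj (ta 0 y g))‖ ≤ q 1 * (2 * ‖a‖) := by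
        refine (norm_sum_le _ _).trans ?_
        calc _ ≤ ∑ _y : Fk (0 + 1), 2 * ‖a‖ := by
              refine Finset.sum_le_sum fun y _ => (norm_ev_le _ _ _).trans ?_
              rw [norm_mul, RCLike.norm_conj, norm_ta, mul_one]
          _ = q 1 * (2 * ‖a‖) := by
              rw [Finset.sum_const, nsmul_eq_mul, Finset.card_univ, ← q_eq]
      have h2 : r 0 = 1 := by unfold r; simp
      rw [h2]
      calc (q (0 + 1))⁻¹ * ‖∑ y, ev 0 y (a * conj (ta 0 y g))‖
          ≤ (q 1)⁻¹ * (q 1 * (2 * ‖a‖)) := by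
            apply mul_le_mul_of_nonneg_left h1 (by positivity)
        _ = 2 * ‖a‖ := by field_simp
        _ ≤ 6 * 1 * ‖a‖ := by have := norm_nonneg a; linarith
  | succ k =>
      have hq1 := q_pos (k + 1)
      have hq2 := q_pos (k + 2)
      have hr1 := r_pos (k + 1)
      have hr2 : r (k + 2) ≤ r (k + 1) := by
        unfold r
        exact pow_le_pow_of_le_one (by norm_num) (by norm_num) (by omega)
      have ha := norm_nonneg a
      have e : phi (k + 1) g a =
          inj (k + 1) (fun h => a * (((q (k + 2) : ℂ)⁻¹ *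
            ∑ y, conj (ta (k + 1) y g) * ta (k + 1) y h) -
            (q (k + 1) : ℂ)⁻¹ * ∑ y, conj (sg (k + 1) y g) * sg (k + 1) y h)) +
          inj (k + 2) (fun h => a * ((q (k + 2) : ℂ)⁻¹ *
            ∑ y, conj (ta (k + 1) y g) * sg (k + 2) y h)) -
          inj k (fun h => a * ((q (k + 1) : ℂ)⁻¹ *
            ∑ y, conj (sg (k + 1) y g) * ta k y h)) := by
        rw [phi_succ, LinearMap.sub_apply, P_eq, Q_eq]
        have e1 : (fun h : Fk (k + 1) × Fk (k + 1) => a * (((q (k + 2) : ℂ)⁻¹ *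
            ∑ y, conj (ta (k + 1) y g) * ta (k + 1) y h) -
            (q (k + 1) : ℂ)⁻¹ * ∑ y, conj (sg (k + 1) y g) * sg (k + 1) y h)) =
            (fun h => a * ((q (k + 2) : ℂ)⁻¹ *
            ∑ y, conj (ta (k + 1) y g) * ta (k + 1) y h)) -
            (fun h => a * ((q (k + 1) : ℂ)⁻¹ *
              ∑ y, conj (sg (k + 1) y g) * sg (k + 1) y h)) := by
          funext h
          simp only [Pi.sub_apply]
          ring
        rw [e1, map_sub]
        abel
      rw [e]
      refine (norm_sub_le _ _).trans ?_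
      have hD : ‖inj (k + 1) (fun h => a * (((q (k + 2) : ℂ)⁻¹ *
            ∑ y, conj (ta (k + 1) y g) * ta (k + 1) y h) -
            (q (k + 1) : ℂ)⁻¹ * ∑ y, conj (sg (k + 1) y g) * sg (k + 1) y h))‖
          ≤ 2 * r (k + 1) * ‖a‖ := by
        rw [norm_inj]
        refine norm_pi_le (by positivity) fun h => ?_
        by_cases hgh : g = h
        · subst hgh
          rw [sg_diag, ta_diag, sub_self, mul_zero, norm_zero]; positivity
        · rw [norm_mul, mul_comm]
          gcongr
          refine (norm_sub_le _ _).trans ?_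
          rw [norm_mul, norm_mul, norm_inv, norm_inv, Complex.norm_real, Complex.norm_real,
            Real.norm_of_nonneg hq1.le, Real.norm_of_nonneg hq2.le]
          have h1 := ta_ker (k + 1) hgh
          have h2 := sg_ker (k + 1) hgh
          have h3 := sqrt_le (k + 1)
          calc (q (k + 2))⁻¹ * ‖∑ y, conj (ta (k + 1) y g) * ta (k + 1) y h‖ +
                (q (k + 1))⁻¹ * ‖∑ y, conj (sg (k + 1) y g) * sg (k + 1) y h‖
              ≤ (q (k + 2))⁻¹ * (5 * √(q (k + 1))) + (q (k + 1))⁻¹ * √(q (k + 1)) := by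
                gcongr
            _ ≤ (q (k + 2))⁻¹ * (5 * (q (k + 1) * r (k + 1))) +
                (q (k + 1))⁻¹ * (q (k + 1) * r (k + 1)) := by
                gcongr
            _ = 2 * r (k + 1) := by
                rw [q_succ (k + 1)]
                field_simp
                ring
      have hU : ‖inj (k + 2) (fun h => a * ((q (k + 2) : ℂ)⁻¹ *
            ∑ y, conj (ta (k + 1) y g) * sg (k + 2) y h))‖ ≤ 2 * r (k + 1) * ‖a‖ := by
        rw [norm_inj]
        refine norm_pi_le (by positivity) fun h => ?_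
        rw [norm_mul, mul_comm]
        gcongr
        rw [norm_mul, norm_inv, Complex.norm_real, Real.norm_of_nonneg hq2.le]
        have h1 : ‖∑ y, conj (ta (k + 1) y g) * sg (k + 2) y h‖ ≤
            2 * (q (k + 2) * r (k + 2)) := by
          have := cross_le (k + 1) h g
          simp_rw [mul_comm (conj (ta (k + 1) _ g))]
          exact this
        calc (q (k + 2))⁻¹ * ‖∑ y, conj (ta (k + 1) y g) * sg (k + 2) y h‖
            ≤ (q (k + 2))⁻¹ * (2 * (q (k + 2) * r (k + 2))) := by gcongr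
          _ = 2 * r (k + 2) := by field_simp
          _ ≤ 2 * r (k + 1) := by linarith
      have hW : ‖inj k (fun h => a * ((q (k + 1) : ℂ)⁻¹ *
            ∑ y, conj (sg (k + 1) y g) * ta k y h))‖ ≤ 2 * r (k + 1) * ‖a‖ := by
        rw [norm_inj]
        refine norm_pi_le (by positivity) fun h => ?_
        rw [norm_mul, mul_comm]
        gcongr
        rw [norm_mul, norm_inv, Complex.norm_real, Real.norm_of_nonneg hq1.le]
        have h1 : ‖∑ y, conj (sg (k + 1) y g) * ta k y h‖ ≤ 2 * (q (k + 1) * r (k + 1)) := by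
          have := cross_le k g h
          rw [← RCLike.norm_conj, map_sum] at this
          refine le_trans (le_of_eq ?_) this
          congr 1
          refine Finset.sum_congr rfl fun y _ => ?_
          rw [map_mul, Complex.conj_conj]
        calc (q (k + 1))⁻¹ * ‖∑ y, conj (sg (k + 1) y g) * ta k y h‖
            ≤ (q (k + 1))⁻¹ * (2 * (q (k + 1) * r (k + 1))) := by gcongr
          _ = 2 * r (k + 1) := by field_simp
      have := norm_add_le (inj (k + 1) (fun h => a * (((q (k + 2) : ℂ)⁻¹ *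
            ∑ y, conj (ta (k + 1) y g) * ta (k + 1) y h) -
            (q (k + 1) : ℂ)⁻¹ * ∑ y, conj (sg (k + 1) y g) * sg (k + 1) y h)))
          (inj (k + 2) (fun h => a * ((q (k + 2) : ℂ)⁻¹ *
            ∑ y, conj (ta (k + 1) y g) * sg (k + 2) y h)))
      linarith

end Pool.Agent.helper26.H27.Enflo
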