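import Mathlib
import Pool.Agent.helper26.H27.Enflo2

set_option autoImplicit false

open ComplexConjugate Filter Topology

namespace Pool.Agent.helper26.H27.Enflo

open Pool.Agent.helper26.H27.Expsum

/-- The countable generating set. -/
noncomputable def gens : Set Amb :=
  Set.range (fun i : (Σ k : ℕ, Fk (k + 1)) × Bool =>
    ev i.1.1 i.1.2 (if i.2 then Complex.I else 1))

/-- The normed space: the algebraic span of the vectors `ev k y a`. -/
noncomputable def Xs : Submodule ℝ Amb := Submodule.span ℝ gens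

noncomputable instance instXs1 : NormedAddCommGroup Xs := Submodule.normedAddCommGroup Xs

noncomputable instance instXs2 : NormedSpace ℝ Xs := Submodule.normedSpace Xs

noncomputable instance instXs3 : Norm Xs := instXs1.toNorm

lemma ev_mem (k : ℕ) (y : Fk (k + 1)) (a : ℂ) : ev k y a ∈ Xs := by
  have h1 : ev k y 1 ∈ Xs := Submodule.subset_span ⟨(⟨k, y⟩, false), by simp⟩
  have h2 : ev k y Complex.I ∈ Xs := Submodule.subset_span ⟨(⟨k, y⟩, true), by simp⟩
  have : ev k y a = a.re • ev k y 1 + a.im • ev k y Complex.I := by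
    rw [← map_smul, ← map_smul, ← map_add]
    congr 1
    apply Complex.ext <;> simp
  rw [this]
  exact Submodule.add_mem _ (Submodule.smul_mem _ _ h1) (Submodule.smul_mem _ _ h2)

lemma P_mem (k : ℕ) (g : Fk k × Fk k) (a : ℂ) : P k g a ∈ Xs := by
  rw [P_apply]
  exact Submodule.smul_mem _ _ (Submodule.sum_mem _ fun y _ => ev_mem _ _ _)

lemma Q_mem (k : ℕ) (g : Fk (k + 1) × Fk (k + 1)) (a : ℂ) : Q k g a ∈ Xs := by
  rw [Q_apply]
  exact Submodule.smul_mem _ _ (Submodule.sum_mem _ fun y _ => ev_mem _ _ _)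

lemma phi_mem (k : ℕ) (g : Fk k × Fk k) (a : ℂ) : phi k g a ∈ Xs := by
  cases k with
  | zero => exact P_mem 0 g a
  | succ k =>
      rw [phi_succ, LinearMap.sub_apply]
      exact Submodule.sub_mem _ (P_mem _ _ _) (Q_mem _ _ _)

/-- The index set of the data. -/
abbrev Ix : Type := Σ k : ℕ, (Fk k × Fk k) × Bool

/-- The weights. -/
noncomputable def wt (i : Ix) : ℝ := (q i.1 ^ 2)⁻¹ * (4 / 5) ^ i.1

/-- The vectors of the data. -/
noncomputable def Av (i : Ix) : Xs :=
  ⟨(q i.1 ^ 2)⁻¹ • phi i.1 i.2.1 (if i.2.2 then Complex.I else 1),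
    Submodule.smul_mem _ _ (phi_mem _ _ _)⟩

/-- The coordinate functional, as a linear map. -/
noncomputable def flin (i : Ix) : Xs →ₗ[ℝ] ℝ where
  toFun v := if i.2.2 then ((v : Amb) i.1 i.2.1).im else ((v : Amb) i.1 i.2.1).re
  map_add' v w := by
    rw [Submodule.coe_add, lp.coeFn_add, Pi.add_apply, Pi.add_apply]
    split_ifs <;> simp
  map_smul' c v := by
    rw [Submodule.coe_smul, lp.coeFn_smul, Pi.smul_apply, Pi.smul_apply]
    split_ifs <;> simp

lemma flin_apply (i : Ix) (v : Xs) :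
    flin i v = if i.2.2 then ((v : Amb) i.1 i.2.1).im else ((v : Amb) i.1 i.2.1).re := rfl

lemma flin_le (i : Ix) (v : Xs) : |flin i v| ≤ ‖v‖ := by
  have h1 : ‖(v : Amb) i.1 i.2.1‖ ≤ ‖v‖ :=
    (norm_le_pi_norm _ _).trans (lp.norm_apply_le_norm (by simp) (v : Amb) i.1)
  rw [flin_apply]
  split_ifs
  · exact (Complex.abs_im_le_norm _).trans h1
  · exact (Complex.abs_re_le_norm _).trans h1

/-- The coordinate functionals. -/
noncomputable def fv (i : Ix) : Xs →L[ℝ] ℝ :=
  (flin i).mkContinuous 1 (fun v => by rw [one_mul]; exact flin_le i v)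

lemma fv_apply (i : Ix) (v : Xs) :
    fv i v = if i.2.2 then ((v : Amb) i.1 i.2.1).im else ((v : Amb) i.1 i.2.1).re := rfl

lemma wt_pos (i : Ix) : 0 < wt i := by
  unfold wt
  have := q_pos i.1
  positivity

lemma wt_summable : Summable wt := by
  have h : ∀ k : ℕ, ∑ y : (Fk k × Fk k) × Bool, wt ⟨k, y⟩ = 2 * (4 / 5) ^ k := by
    intro k
    unfold wt
    simp only
    rw [Finset.sum_const, Finset.card_univ, Fintype.card_prod, Fintype.card_prod,
      Fintype.card_bool, nsmul_eq_mul]
    push_cast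
    rw [q_eq]
    have := (q_pos k).ne'
    field_simp
  rw [summable_sigma_of_nonneg (fun i => (wt_pos i).le)]
  refine ⟨fun k => Summable.of_finite, ?_⟩
  have e : (fun k => ∑' y : (Fk k × Fk k) × Bool, wt ⟨k, y⟩) = fun k => 2 * (4 / 5 : ℝ) ^ k := by
    funext k
    rw [tsum_fintype, h]
  rw [e]
  exact (summable_geometric_of_lt_one (by norm_num) (by norm_num)).mul_left 2

lemma norm_Av_le (i : Ix) : ‖Av i‖ ≤ 6 * (q i.1 ^ 2)⁻¹ * r i.1 := by
  have hq := q_pos i.1
  have h := phi_bound i.1 i.2.1 (if i.2.2 then Complex.I else 1)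
  have h1 : ‖(if i.2.2 then Complex.I else 1 : ℂ)‖ = 1 := by split_ifs <;> simp
  rw [h1, mul_one] at h
  have h2 : ‖Av i‖ = (q i.1 ^ 2)⁻¹ * ‖phi i.1 i.2.1 (if i.2.2 then Complex.I else 1)‖ := by
    change ‖(q i.1 ^ 2)⁻¹ • phi i.1 i.2.1 (if i.2.2 then Complex.I else 1)‖ = _
    rw [norm_smul, Real.norm_of_nonneg (by positivity)]
  rw [h2]
  calc (q i.1 ^ 2)⁻¹ * ‖phi i.1 i.2.1 (if i.2.2 then Complex.I else 1)‖
      ≤ (q i.1 ^ 2)⁻¹ * (6 * r i.1) := by gcongr
    _ = _ := by ring

lemma fst_tendsto : Tendsto (fun i : Ix => i.1) cofinite atTop := by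
  rw [tendsto_atTop]
  intro n
  have : {i : Ix | ¬ n ≤ i.1}.Finite := by
    have h : {i : Ix | ¬ n ≤ i.1} ⊆
        ((Finset.range n).sigma (fun k => (Finset.univ : Finset ((Fk k × Fk k) × Bool))) :
          Set Ix) := by
      intro i hi
      simpa using hi
    exact (Finset.finite_toSet _).subset h
  exact this

lemma Av_small : Tendsto (fun i => ‖Av i‖ / wt i) cofinite (𝓝 0) := by
  have h1 : ∀ i, ‖Av i‖ / wt i ≤ 6 * (25 / 28 : ℝ) ^ i.1 := by
    intro i
    have hq := q_pos i.1
    rw [div_le_iff₀ (wt_pos i)]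
    refine (norm_Av_le i).trans (le_of_eq ?_)
    unfold wt r
    have : (25 / 28 : ℝ) ^ i.1 * (4 / 5) ^ i.1 = (5 / 7) ^ i.1 := by
      rw [← mul_pow]; norm_num
    rw [← this]; ring
  refine squeeze_zero (fun i => div_nonneg (norm_nonneg _) (wt_pos i).le) h1 ?_
  have h2 : Tendsto (fun n : ℕ => 6 * (25 / 28 : ℝ) ^ n) atTop (𝓝 0) := by
    have := (tendsto_pow_atTop_nhds_zero_of_lt_one (r := (25 / 28 : ℝ)) (by norm_num)
      (by norm_num)).const_mul 6
    simpa using this
  exact h2.comp fst_tendsto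

lemma exists_block_bound (v : Xs) : ∃ n : ℕ, ∀ k, n ≤ k → (v : Amb) k = 0 := by
  obtain ⟨v, hv⟩ := v
  simp only
  unfold Xs at hv
  induction hv using Submodule.span_induction with
  | mem x hx =>
      obtain ⟨⟨⟨m, y⟩, b⟩, rfl⟩ := hx
      refine ⟨m + 2, fun k hk => ?_⟩
      simp only
      rw [ev_apply, lp.coeFn_add, Pi.add_apply, inj_ne _ (by omega), inj_ne _ (by omega),
        add_zero]
  | zero => exact ⟨0, fun k _ => rfl⟩
  | add x y _ _ hx hy =>
      obtain ⟨n, hn⟩ := hx
      obtain ⟨m, hm⟩ := hy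
      refine ⟨max n m, fun k hk => ?_⟩
      rw [lp.coeFn_add, Pi.add_apply, hn k (le_trans (le_max_left _ _) hk),
        hm k (le_trans (le_max_right _ _) hk), add_zero]
  | smul a x _ hx =>
      obtain ⟨n, hn⟩ := hx
      refine ⟨n, fun k hk => ?_⟩
      rw [lp.coeFn_smul, Pi.smul_apply, hn k hk, smul_zero]

lemma fv_finite (v : Xs) : (Function.support fun i => fv i v).Finite := by
  obtain ⟨n, hn⟩ := exists_block_bound v
  have h : (Function.support fun i => fv i v) ⊆
      ((Finset.range n).sigma (fun k => (Finset.univ : Finset ((Fk k × Fk k) × Bool))) :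
        Set Ix) := by
    intro i hi
    rw [Function.mem_support] at hi
    simp only [Finset.coe_sigma, Set.mem_sigma_iff, Finset.coe_range, Set.mem_Iio,
      Finset.coe_univ, Set.mem_univ, and_true]
    by_contra hcon
    push Not at hcon
    apply hi
    rw [fv_apply, hn _ hcon]
    simp
  exact (Finset.finite_toSet _).subset h

/-- Abstract extension of the relation from a generating set. -/
lemma abs_rel {V ι : Type*} [AddCommGroup V] [Module ℝ V] (f : ι → V →ₗ[ℝ] ℝ) (A : ι → V)
    (hfin : ∀ v, (Function.support fun i => f i v).Finite) (S : Set V)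
    (hS : Submodule.span ℝ S = ⊤) (h : ∀ v ∈ S, ∑ᶠ i, f i v • A i = 0) (v : V) :
    ∑ᶠ i, f i v • A i = 0 := by
  have hfin' : ∀ v : V, (Function.support fun i => f i v • A i).Finite := fun v =>
    (hfin v).subset (fun i hi => by
      rw [Function.mem_support] at hi ⊢
      exact fun h => hi (by rw [h, zero_smul]))
  have hv : v ∈ Submodule.span ℝ S := by rw [hS]; trivial
  induction hv using Submodule.span_induction with
  | mem x hx => exact h x hx
  | zero => simp
  | add x y _ _ ihx ihy =>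
      have e : ∀ i, f i (x + y) • A i = f i x • A i + f i y • A i := by
        intro i; rw [← add_smul, ← map_add]
      simp_rw [e]
      rw [finsum_add_distrib (hfin' _) (hfin' _), ihx, ihy, add_zero]
  | smul c x _ ihx =>
      have e : ∀ i, f i (c • x) • A i = c • (f i x • A i) := by
        intro i; rw [smul_smul, map_smul, smul_eq_mul]
      simp_rw [e]
      rw [← smul_finsum, ihx, smul_zero]

lemma span_gens : Submodule.span ℝ ((fun v : Xs => (v : Amb)) ⁻¹' gens) = ⊤ :=
  Submodule.span_span_coe_preimage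

lemma fv_block (v : Xs) (k : ℕ) : ∑ s : (Fk k × Fk k) × Bool,
    ((flin ⟨k, s⟩ v • Av ⟨k, s⟩ : Xs) : Amb) =
    (q k ^ 2)⁻¹ • ∑ g, phi k g ((v : Amb) k g) := by
  rw [Fintype.sum_prod_type, Finset.smul_sum]
  refine Finset.sum_congr rfl fun g _ => ?_
  rw [Fintype.sum_bool]
  have h1 : ∀ z : ℂ, phi k g z = z.im • phi k g Complex.I + z.re • phi k g 1 := by
    intro z
    rw [← map_smul, ← map_smul, ← map_add]
    congr 1
    apply Complex.ext <;> simp
  rw [h1, flin_apply, flin_apply, smul_add]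
  simp only [Submodule.coe_smul, Av, if_true, Bool.false_eq_true, if_false]
  rw [smul_comm, smul_comm (_ : ℝ) (q k ^ 2)⁻¹]

lemma fv_rel_gen (m : ℕ) (y : Fk (m + 1)) (a : ℂ) :
    ∑ᶠ i, flin i ⟨ev m y a, ev_mem m y a⟩ • Av i = 0 := by
  set v : Xs := ⟨ev m y a, ev_mem m y a⟩ with hv
  set S : Finset Ix := (({m, m + 1} : Finset ℕ)).sigma
    (fun k => (Finset.univ : Finset ((Fk k × Fk k) × Bool))) with hS
  have hsub : (Function.support fun i => flin i v • Av i) ⊆ (S : Set Ix) := by
    intro i hi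
    rw [Function.mem_support] at hi
    simp only [hS, Finset.coe_sigma, Set.mem_sigma_iff, Finset.coe_univ, Set.mem_univ,
      and_true, Finset.mem_coe, Finset.mem_insert, Finset.mem_singleton]
    by_contra hcon
    push Not at hcon
    apply hi
    have : flin i v = 0 := by
      rw [flin_apply, hv]
      simp only
      rw [ev_apply, lp.coeFn_add, Pi.add_apply, inj_ne _ hcon.1, inj_ne _ hcon.2, add_zero]
      simp
    rw [this, zero_smul]
  rw [finsum_eq_sum_of_support_subset _ hsub]
  apply Subtype.ext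
  rw [Submodule.coe_sum, hS, Finset.sum_sigma, Finset.sum_pair (by omega), fv_block, fv_block]
  have e1 : (v : Amb) m = fun g => a * ta m y g := by
    rw [hv]
    simp only
    rw [ev_apply, lp.coeFn_add, Pi.add_apply, inj_self, inj_ne _ (by omega), add_zero]
  have e2 : (v : Amb) (m + 1) = fun g => a * sg (m + 1) y g := by
    rw [hv]
    simp only
    rw [ev_apply, lp.coeFn_add, Pi.add_apply, inj_self, inj_ne _ (by omega), zero_add]
  rw [e1, e2]
  exact relation m y a

/-- The relation for all vectors. -/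
lemma fv_rel (v : Xs) : ∑ᶠ i, fv i v • Av i = 0 := by
  refine abs_rel flin Av fv_finite _ span_gens ?_ v
  rintro ⟨w, hw⟩ hw'
  obtain ⟨⟨⟨m, y⟩, b⟩, rfl⟩ := hw'
  exact fv_rel_gen m y _

/-- The trace. -/
lemma fv_trace : ∑' i, fv i (Av i) = 2 := by
  have h1 : ∀ i : Ix, fv i (Av i) = if i.1 = 0 then (q 0 ^ 2)⁻¹ else 0 := by
    rintro ⟨k, g, b⟩
    rw [fv_apply]
    simp only [Av]
    rw [lp.coeFn_smul, Pi.smul_apply, Pi.smul_apply]
    cases k with
    | zero =>
        rw [phi_diag_zero]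
        cases b
        · simp only [Bool.false_eq_true, if_false, if_true, Complex.real_smul, mul_one,
            Complex.ofReal_re]
        · simp only [if_true, Complex.real_smul, Complex.re_ofReal_mul, Complex.im_ofReal_mul,
            Complex.I_im, mul_one]
    | succ k =>
        rw [phi_diag_succ]
        simp
  have h2 : ∑' i, fv i (Av i) =
      ∑ i ∈ (({0} : Finset ℕ)).sigma (fun k => (Finset.univ : Finset ((Fk k × Fk k) × Bool))),
        fv i (Av i) := by
    apply tsum_eq_sum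
    intro i hi
    rw [h1, if_neg]
    intro h0
    apply hi
    simp [h0]
  rw [h2, Finset.sum_sigma, Finset.sum_singleton]
  simp_rw [h1]
  simp only [if_true]
  rw [Finset.sum_const, Finset.card_univ, Fintype.card_prod, Fintype.card_prod,
    Fintype.card_bool, nsmul_eq_mul]
  push_cast
  rw [q_eq]
  have := (q_pos 0).ne'
  field_simp

/-- **Enflo-Davie type data.**  There is a real normed space `X`, countably generated as a vector
space, with countably many functionals `f i` of norm at most one and vectors `A i` with small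
norms, such that `∑ f i v • A i = 0` for all `v` (finite sums), but `∑ f i (A i) ≠ 0`. -/
theorem exists_data : ∃ (X : Type) (_ : NormedAddCommGroup X) (_ : NormedSpace ℝ X) (x : ℕ → X)
    (ι : Type) (f : ι → X →L[ℝ] ℝ) (A : ι → X) (w : ι → ℝ),
    Submodule.span ℝ (Set.range x) = ⊤ ∧ (∀ i, 0 < w i) ∧ Summable w ∧
    (∀ i v, |f i v| ≤ ‖v‖) ∧ Tendsto (fun i => ‖A i‖ / w i) cofinite (𝓝 0) ∧
    (∀ v, (Function.support fun i => f i v).Finite) ∧ (∀ v, ∑ᶠ i, f i v • A i = 0) ∧
    ∑' i, f i (A i) ≠ 0 := by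
  have hgen : ∃ x : ℕ → Xs, Set.range x = (fun v : Xs => (v : Amb)) ⁻¹' gens := by
    have hc : gens.Countable := by unfold gens; exact Set.countable_range _
    have hc' : ((fun v : Xs => (v : Amb)) ⁻¹' gens).Countable :=
      hc.preimage_of_injOn Subtype.val_injective.injOn
    have hne : ((fun v : Xs => (v : Amb)) ⁻¹' gens).Nonempty :=
      ⟨⟨ev 0 0 1, ev_mem _ _ _⟩, ⟨(⟨0, 0⟩, false), by simp⟩⟩
    obtain ⟨x, hx⟩ := hc'.exists_eq_range hne
    exact ⟨x, hx.symm⟩
  obtain ⟨x, hx⟩ := hgen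
  refine ⟨Xs, inferInstance, inferInstance, x, Ix, fv, Av, wt, ?_, wt_pos, wt_summable,
    fun i v => flin_le i v, Av_small, fv_finite, fv_rel, ?_⟩
  · rw [hx]; exact span_gens
  · rw [fv_trace]; norm_num

end Pool.Agent.helper26.H27.Enflo
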